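import Pool.Agent.TH332.DW.Facts
import Pool.Agent.TH332.DW.Low

/-! `DW-E1`: the boundary of the domain `Om` contains no analytic disc. -/

namespace Pool.TH332.DW

open Metric Set Filter Topology

namespace TH26

theorem two_points (hfr : ∀ z ∈ frontier Om, rho z = 0) (hb : ∀ z ∈ frontier Om, |z.1.im| ≤ 4)
    (hgg : ∀ q q' : ℝ, 0 ≤ q → 0 ≤ q' → gg q + expNegInvGlue q * (q' - q) ≤ gg q')
    {φ : ℂ → ℂ × ℂ} (hφ : DifferentiableOn ℂ φ (ball 0 1))
    (hm : MapsTo φ (ball 0 1) (frontier Om)) {a : ℂ} (ha : a ∈ ball (0 : ℂ) 1) {b : ℂ}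
    (hbb : b ∈ ball (0 : ℂ) 1) : (φ b).1.im = (φ a).1.im ∧ (φ b).2 = (φ a).2 := by
  set ζ := φ a with hζ
  have key : ∀ c ∈ ball (0 : ℂ) 1, (lin ζ (φ c - ζ)).re + ((1 / 2) * ‖(φ c).2 - ζ.2‖ ^ 2 +
      (up (φ c) - up ζ) ^ 2 + 2 * up ζ * (|(φ c).1.im| - Real.sign ζ.1.im * (φ c).1.im) +
      expNegInvGlue (qq ζ) * (((φ c).1.im - ζ.1.im) ^ 2 + ‖(φ c).2 - ζ.2‖ ^ 2) +
      (xp (φ c) - xp ζ) ^ 2) ≤ 0 := by
    intro c hc
    have h := rho_lower hgg ζ (φ c) (hb _ (hm ha))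
    rw [hfr _ (hm hc), hfr _ (hm ha)] at h
    linarith
  have pos : ∀ c : ℂ, 0 ≤ 2 * up ζ * (|(φ c).1.im| - Real.sign ζ.1.im * (φ c).1.im) := by
    intro c
    have h1 := sign_mul_le_abs ζ.1.im (φ c).1.im
    have h2 := up_nonneg ζ
    have : 0 ≤ |(φ c).1.im| - Real.sign ζ.1.im * (φ c).1.im := by linarith
    positivity
  have hexp : 0 ≤ expNegInvGlue (qq ζ) := expNegInvGlue.nonneg _
  have hre : ∀ c ∈ ball (0 : ℂ) 1, (lin ζ (φ c - ζ)).re ≤ 0 := by
    intro c hc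
    have h1 := key c hc
    have h2 := pos c
    have h3 : 0 ≤ (1 / 2) * ‖(φ c).2 - ζ.2‖ ^ 2 := by positivity
    have h4 : 0 ≤ (up (φ c) - up ζ) ^ 2 := by positivity
    have h5 : 0 ≤ expNegInvGlue (qq ζ) * (((φ c).1.im - ζ.1.im) ^ 2 + ‖(φ c).2 - ζ.2‖ ^ 2) := by
      positivity
    have h6 : 0 ≤ (xp (φ c) - xp ζ) ^ 2 := by positivity
    linarith
  have hd : DifferentiableOn ℂ (fun c => Complex.exp (lin ζ (φ c - ζ))) (ball 0 1) := by
    have h1 : DifferentiableOn ℂ (fun c => φ c - ζ) (ball 0 1) := hφ.sub_const _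
    have h2 : DifferentiableOn ℂ (fun c => (φ c - ζ).1) (ball 0 1) := h1.fst
    have h3 : DifferentiableOn ℂ (fun c => (φ c - ζ).2) (ball 0 1) := h1.snd
    exact ((h2.const_mul _).add (h3.const_mul _)).cexp
  have hlin0 : lin ζ (φ a - ζ) = 0 := by
    rw [← hζ, sub_self]; simp [lin]
  have hmax : IsMaxOn (norm ∘ fun c => Complex.exp (lin ζ (φ c - ζ))) (ball 0 1) a := by
    intro c hc
    simp only [Function.comp_apply, mem_ofPred_eq, Complex.norm_exp]
    rw [hlin0]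
    exact Real.exp_le_exp.2 (by simpa using hre c hc)
  have hEq := Complex.norm_eqOn_of_isPreconnected_of_isMaxOn
    (convex_ball (0 : ℂ) 1).isPreconnected isOpen_ball hd ha hmax hbb
  simp only [Function.comp_apply, Function.const_apply, Complex.norm_exp, hlin0,
    Complex.zero_re, Real.exp_zero, Real.exp_eq_one_iff] at hEq
  have h1 := key b hbb
  have h2 := pos b
  have h3 : 0 ≤ (1 / 2) * ‖(φ b).2 - ζ.2‖ ^ 2 := by positivity
  have h4 : 0 ≤ (up (φ b) - up ζ) ^ 2 := by positivity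
  have h5 : 0 ≤ expNegInvGlue (qq ζ) * (((φ b).1.im - ζ.1.im) ^ 2 + ‖(φ b).2 - ζ.2‖ ^ 2) := by
    positivity
  have h6 : 0 ≤ (xp (φ b) - xp ζ) ^ 2 := by positivity
  have e3 : ‖(φ b).2 - ζ.2‖ ^ 2 = 0 := by nlinarith
  have e4 : (up (φ b) - up ζ) ^ 2 = 0 := by nlinarith
  have e5 : expNegInvGlue (qq ζ) * (((φ b).1.im - ζ.1.im) ^ 2 + ‖(φ b).2 - ζ.2‖ ^ 2) = 0 := by
    nlinarith
  have hw : (φ b).2 = ζ.2 := by
    have := pow_eq_zero_iff (two_ne_zero) |>.1 e3
    exact sub_eq_zero.1 (norm_eq_zero.1 this)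
  have hu : up (φ b) = up ζ := by
    have := pow_eq_zero_iff (two_ne_zero) |>.1 e4
    linarith
  refine ⟨?_, hw⟩
  rcases (qq_nonneg ζ).lt_or_eq with hq | hq
  · have hp : 0 < expNegInvGlue (qq ζ) := expNegInvGlue.pos_of_pos hq
    rw [e3, add_zero] at e5
    have := (mul_eq_zero.1 e5).resolve_left hp.ne'
    have := pow_eq_zero_iff (two_ne_zero) |>.1 this
    linarith
  · have hy : ζ.1.im = 0 := by
      unfold qq at hq
      have t1 : 0 ≤ ζ.1.im ^ 2 := by positivity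
      have t2 : 0 ≤ ‖ζ.2‖ ^ 2 := by positivity
      exact pow_eq_zero_iff (two_ne_zero) |>.1 (by linarith)
    have hw0 : ‖ζ.2‖ = 0 := by
      unfold qq at hq
      have t1 : 0 ≤ ζ.1.im ^ 2 := by positivity
      have t2 : 0 ≤ ‖ζ.2‖ ^ 2 := by positivity
      exact pow_eq_zero_iff (two_ne_zero) |>.1 (by linarith)
    have hu0 : up ζ = 0 := by
      have := up_le ζ
      rw [hy, abs_zero] at this
      exact le_antisymm this (up_nonneg _)
    have hub : |(φ b).1.im| ≤ up (φ b) := by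
      unfold up
      rw [hw, hw0]
      simp
    rw [hu, hu0] at hub
    rw [hy]
    exact abs_eq_zero.1 (le_antisymm hub (abs_nonneg _))

theorem im_const {f : ℂ → ℂ} (hf : DifferentiableOn ℂ f (ball 0 1)) {a : ℂ}
    (ha : a ∈ ball (0 : ℂ) 1) (him : ∀ c ∈ ball (0 : ℂ) 1, (f c).im = (f a).im) {b : ℂ}
    (hb : b ∈ ball (0 : ℂ) 1) : f b = f a := by
  by_contra hne
  set x : ℝ := (f b).re - (f a).re with hx
  have hx0 : x ≠ 0 := by
    intro h
    apply hne
    apply Complex.ext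
    · linarith
    · exact him b hb
  set t : ℝ := Real.pi / x with ht
  have hd : DifferentiableOn ℂ (fun c => Complex.exp (Complex.I * ((t : ℂ) * (f c - f a))))
      (ball 0 1) := (((hf.sub_const _).const_mul _).const_mul _).cexp
  have hn : ∀ c ∈ ball (0 : ℂ) 1,
      ‖Complex.exp (Complex.I * ((t : ℂ) * (f c - f a)))‖ = 1 := by
    intro c hc
    rw [Complex.norm_exp]
    have : (Complex.I * ((t : ℂ) * (f c - f a))).re = 0 := by
      simp [him c hc]
    rw [this, Real.exp_zero]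
  have hmax : IsMaxOn (norm ∘ fun c => Complex.exp (Complex.I * ((t : ℂ) * (f c - f a))))
      (ball 0 1) a := by
    intro c hc
    simp only [Function.comp_apply, mem_ofPred_eq]
    rw [hn c hc, hn a ha]
  have hEq := Complex.eqOn_of_isPreconnected_of_isMaxOn_norm
    (convex_ball (0 : ℂ) 1).isPreconnected isOpen_ball hd ha hmax hb
  simp only [Function.const_apply, sub_self, mul_zero, Complex.exp_zero] at hEq
  have hfb : f b - f a = (x : ℂ) := by
    apply Complex.ext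
    · simp [hx]
    · simp [him b hb]
  have h1 : Complex.I * ((t : ℂ) * (f b - f a)) = (Real.pi : ℂ) * Complex.I := by
    have hxc : (x : ℂ) ≠ 0 := by exact_mod_cast hx0
    rw [hfb, ht]
    push_cast
    field_simp
  rw [h1, Complex.exp_pi_mul_I] at hEq
  norm_num at hEq

end TH26

theorem noDiscs_Om (hfr : ∀ z ∈ frontier Om, rho z = 0) (hb : ∀ z ∈ frontier Om, |z.1.im| ≤ 4)
    (hgg : ∀ q q' : ℝ, 0 ≤ q → 0 ≤ q' → gg q + expNegInvGlue q * (q' - q) ≤ gg q') :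
    NoDiscs Om := by
  intro φ hφ hm a ha b hbb
  have h := fun c hc => TH26.two_points hfr hb hgg hφ hm ha (b := c) hc
  refine Prod.ext ?_ (h b hbb).2.symm
  exact (TH26.im_const (f := fun c => (φ c).1) hφ.fst ha (fun c hc => (h c hc).1) hbb).symm

end Pool.TH332.DW
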