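import Mathlib
import Pool.Agent.TH202.FlRes
import Pool.Agent.TH202.Cen
import Pool.Agent.TH828.FL_RA
import Pool.Agent.TH592.FL_IR
import Pool.Agent.TH142.FL_ABHY

set_option autoImplicit false

/-!
# Job 976 (FL-GAUSS, MP_aa0b3f_ag)

The Gauss valuation lemma (`gauss`) and its minimality form (`gauss_min`).
-/

namespace Pool.Agent.TH26.FL_GAUSS
open Pool.Agent.H436R3.Fol Pool.Agent.TH202 MvPolynomial
open Pool.Agent.TH828.FL_RA (RA_inv RA_trans)
open Pool.Agent.TH592.FL_IR (ind2_of_RA RA_of_not_ind2 not_RA_of_ind2 ind2_symm ind2_ne)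
open Pool.Agent.TH142.FL_ABHY (abhy)

variable {K : Type} [Field K] [Algebra ℂ K]

/-- A residue vanishes if and only if the element has positive order. -/
theorem residue_zero_iff {w : DVal K} (x : VS w) :
    IsLocalRing.residue (VS w) x = 0 ↔ w.Pos (x : K) := by
  rw [IsLocalRing.residue_eq_zero_iff, IsLocalRing.mem_maximalIdeal, mem_nonunits_iff]
  have hxr : w.Reg (x : K) := x.2
  constructor
  · intro h
    by_contra hp
    apply h
    have hx0 : (x : K) ≠ 0 := fun h0 => hp (Or.inl h0)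
    have h0 : w.ord (x : K) = 0 := by
      have h1 := hxr.resolve_left hx0
      have h2 : ¬ 0 < w.ord (x : K) := fun h2 => hp (Or.inr h2)
      omega
    have hi : (x : K)⁻¹ ∈ VS w := by
      change w.Reg _
      right
      rw [w.ord_inv hx0, h0, neg_zero]
    refine IsUnit.of_mul_eq_one ⟨(x : K)⁻¹, hi⟩ ?_
    apply Subtype.ext
    change (x : K) * (x : K)⁻¹ = 1
    exact mul_inv_cancel₀ hx0
  · intro hp hu
    obtain ⟨y, hy⟩ := hu.exists_right_inv
    have hy' : (x : K) * (y : K) = 1 := congrArg Subtype.val hy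
    have hx0 : (x : K) ≠ 0 := left_ne_zero_of_mul_eq_one hy'
    have hy0 : (y : K) ≠ 0 := right_ne_zero_of_mul_eq_one hy'
    have h1 := w.map_mul _ _ hx0 hy0
    rw [hy', w.ord_one] at h1
    have h2 := hp.resolve_left hx0
    have hyr : w.Reg (y : K) := y.2
    have h3 := hyr.resolve_left hy0
    omega

/-- The reduction of a polynomial relation. -/
theorem red_alg {L : Subring K} {w : DVal K} {s c : K} (hc : w.Reg c)
    (hL : ∀ h ∈ L, w.Reg h → RA w {s} h) (p : Polynomial L) (hp : ∀ i, w.Reg (p.coeff i : K))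
    (hpos : w.Pos (Polynomial.aeval c p)) (i : ℕ) (hi : ¬ w.Pos (p.coeff i : K)) :
    RA w {s} c := by
  set κ := IsLocalRing.ResidueField (VS w) with hκ
  set A := rsub w {s} with hA
  let E : Subalgebra A κ := Subalgebra.algebraicClosure A κ
  have hE : ∀ z : κ, IsAlgebraic A z → z ∈ E := fun z hz => hz
  let aO : ℕ → VS w := fun j => ⟨(p.coeff j : K), hp j⟩
  have haE : ∀ j, IsLocalRing.residue (VS w) (aO j) ∈ E := fun j => by
    obtain ⟨h1, h2⟩ := hL _ (p.coeff j).2 (hp j)
    exact hE _ h2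
  let co : ℕ → E := fun j => ⟨IsLocalRing.residue (VS w) (aO j), haE j⟩
  let cO : VS w := ⟨c, hc⟩
  let P : Polynomial E := ∑ j ∈ Finset.range (p.natDegree + 1), Polynomial.monomial j (co j)
  have hPc : ∀ j, j ≤ p.natDegree → P.coeff j = co j := by
    intro j hj
    rw [Polynomial.finsetSum_coeff, Finset.sum_eq_single j]
    · rw [Polynomial.coeff_monomial, if_pos rfl]
    · intro b _ hb
      rw [Polynomial.coeff_monomial, if_neg hb]
    · intro h
      exact absurd (Finset.mem_range.2 (Nat.lt_succ_of_le hj)) h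
  have hid : i ≤ p.natDegree := by
    by_contra hlt
    push Not at hlt
    apply hi
    rw [Polynomial.coeff_eq_zero_of_natDegree_lt hlt]
    exact Or.inl rfl
  have hP0 : P ≠ 0 := by
    intro h0
    have h1 := hPc i hid
    rw [h0, Polynomial.coeff_zero] at h1
    have h2 : IsLocalRing.residue (VS w) (aO i) = 0 := (congrArg Subtype.val h1).symm
    exact hi ((residue_zero_iff _).1 h2)
  have hsum : ((∑ j ∈ Finset.range (p.natDegree + 1), aO j * cO ^ j : VS w) : K) =
      Polynomial.aeval c p := by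
    rw [Polynomial.aeval_eq_sum_range]
    rw [AddSubmonoidClass.coe_finsetSum]
    refine Finset.sum_congr rfl fun j _ => ?_
    rfl
  have hev : Polynomial.aeval (IsLocalRing.residue (VS w) cO) P = 0 := by
    have h1 : IsLocalRing.residue (VS w) (∑ j ∈ Finset.range (p.natDegree + 1), aO j * cO ^ j) = 0 := by
      rw [residue_zero_iff, hsum]
      exact hpos
    rw [map_sum] at h1
    rw [map_sum, ← h1]
    refine Finset.sum_congr rfl fun j _ => ?_
    rw [Polynomial.aeval_monomial, map_mul, map_pow]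
    rfl
  have hal : IsAlgebraic E (IsLocalRing.residue (VS w) cO) := ⟨P, hP0, hev⟩
  have : Algebra.IsAlgebraic A E := by
    constructor
    intro x
    exact (isAlgebraic_algebraMap_iff (R := A) (A := κ) Subtype.val_injective).1 x.2
  exact ⟨hc, hal.restrictScalars A⟩

/-- A valuation that is nontrivial on `F` and whose residues are algebraic over those of elements
of `F` and of `c` or `1/c`. -/
theorem gauss {d : Dat K} {w : DVal K} (hnt : ¬ IsTriv d w) {S : Set K}
    (hS : ∀ t ∈ S, t ∈ Fc d ∧ w.Reg t) {t : K} (ht : t = d.c ∨ t = d.c⁻¹) (htr : w.Reg t)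
    {f g : K} (h : Ind2 w f g) (hf : RA w (insert t S) f) (hg : RA w (insert t S) g) :
    IsGauss d w := by
  have hc0 : d.c ≠ 0 := Pool.Agent.TH189.C8_VS.c_ne d
  obtain ⟨f', hf', g', hg', hi⟩ := ind2_of_RA (S := insert t S) (fun x hx => by
    rcases hx with rfl | hx
    · exact htr
    · exact (hS x hx).2) h hf hg
  obtain ⟨s, hsF, hst⟩ : ∃ s, s ∈ Fc d ∧ Ind2 w s t := by
    rcases hf' with rfl | hf'
    · rcases hg' with rfl | hg'
      · exact absurd rfl (ind2_ne hi).2.2.2.2
      · exact ⟨g', (hS g' hg').1, ind2_symm hi⟩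
    · rcases hg' with rfl | hg'
      · exact ⟨f', (hS f' hf').1, hi⟩
      · exact absurd (abhy (hS f' hf').1 (hS g' hg').1 hi) hnt
  have hto : w.ord t = 0 := (ind2_ne hst).2.2.2.1
  have hco : w.ord d.c = 0 := by
    rcases ht with rfl | rfl
    · exact hto
    · rw [w.ord_inv hc0] at hto
      omega
  have hcr : w.Reg d.c := Or.inr hco.ge
  have hsE : ¬ RA w ∅ s := fun h1 => not_RA_of_ind2 (ind2_symm hst)
    (RA_trans (S := {t}) (S' := ∅) (fun x hx => absurd hx (Set.notMem_empty x)) h1)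
  have key : ∀ x ∈ Fc d, w.Reg x → RA w {s} x := fun x hx hxr =>
    RA_of_not_ind2 hst.1 hxr hsE fun h1 => hnt (abhy hsF hx h1)
  refine ⟨hco, fun p hp hpos => ?_⟩
  by_contra hcon
  push Not at hcon
  obtain ⟨i, hi'⟩ := hcon
  have hRA : RA w {s} d.c :=
    red_alg (L := (Fc d).toSubfield.toSubring) hcr (fun x hx hxr => key x hx hxr) p hp hpos i hi'
  have hRAt : RA w {s} t := by
    rcases ht with rfl | rfl
    · exact hRA
    · exact RA_inv hc0 hRA hco
  exact not_RA_of_ind2 hst hRAt

/-- The Gauss value of a polynomial. -/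
theorem gauss_min {d : Dat K} {w : DVal K} (h : IsGauss d w) {p : Polynomial (Fc d)} (hp : p ≠ 0) :
    ∃ i, p.coeff i ≠ 0 ∧ w.ord (Polynomial.aeval d.c p) = w.ord (p.coeff i : K) ∧
      ∀ j, p.coeff j ≠ 0 → w.ord (p.coeff i : K) ≤ w.ord (p.coeff j : K) := by
  have hne : p.support.Nonempty := Polynomial.support_nonempty.2 hp
  obtain ⟨i, hi, hmin⟩ := p.support.exists_min_image (fun j => w.ord (p.coeff j : K)) hne
  rw [Polynomial.mem_support_iff] at hi
  have hi0 : ((p.coeff i : Fc d) : K) ≠ 0 := fun h0 => hi (Subtype.ext h0)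
  have hmin' : ∀ j, p.coeff j ≠ 0 → w.ord (p.coeff i : K) ≤ w.ord (p.coeff j : K) :=
    fun j hj => hmin j (Polynomial.mem_support_iff.2 hj)
  refine ⟨i, hi, ?_, hmin'⟩
  have hcr : w.Reg d.c := Or.inr h.1.ge
  let q : Polynomial (Fc d) := Polynomial.C (p.coeff i)⁻¹ * p
  have hqc : ∀ j, ((q.coeff j : Fc d) : K) = ((p.coeff i : Fc d) : K)⁻¹ * ((p.coeff j : Fc d) : K) := by
    intro j
    rw [Polynomial.coeff_C_mul]
    rfl
  have hqr : ∀ j, w.Reg (q.coeff j : K) := by
    intro j
    rw [hqc]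
    by_cases hj : p.coeff j = 0
    · rw [hj]
      left
      exact mul_zero _
    · right
      have hj0 : ((p.coeff j : Fc d) : K) ≠ 0 := fun h0 => hj (Subtype.ext h0)
      rw [w.map_mul _ _ (inv_ne_zero hi0) hj0, w.ord_inv hi0]
      have := hmin' j hj
      omega
  have hq1 : ¬ w.Pos (Polynomial.aeval d.c q) := by
    intro hpos
    have h1 := h.2 q hqr hpos i
    rw [hqc, inv_mul_cancel₀ hi0] at h1
    rcases h1 with h1 | h1
    · exact one_ne_zero h1
    · rw [w.ord_one] at h1
      exact lt_irrefl _ h1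
  have hqreg : w.Reg (Polynomial.aeval d.c q) := by
    have h1 : Polynomial.aeval d.c q ∈ w.O := by
      rw [Polynomial.aeval_eq_sum_range]
      refine sum_mem fun j _ => ?_
      change ((q.coeff j : Fc d) : K) * d.c ^ j ∈ w.O
      exact mul_mem (w.mem_O.2 (hqr j)) (pow_mem (w.mem_O.2 hcr) j)
    exact w.mem_O.1 h1
  have hq0 : Polynomial.aeval d.c q ≠ 0 := fun h0 => hq1 (Or.inl h0)
  have hqo : w.ord (Polynomial.aeval d.c q) = 0 := by
    have h1 := hqreg.resolve_left hq0
    have h2 : ¬ 0 < w.ord (Polynomial.aeval d.c q) := fun h2 => hq1 (Or.inr h2)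
    omega
  have hpq : Polynomial.aeval d.c p = ((p.coeff i : Fc d) : K) * Polynomial.aeval d.c q := by
    have h1 : Polynomial.aeval d.c q = ((p.coeff i : Fc d) : K)⁻¹ * Polynomial.aeval d.c p := by
      change Polynomial.aeval d.c (Polynomial.C (p.coeff i)⁻¹ * p) = _
      rw [map_mul, Polynomial.aeval_C]
      rfl
    rw [h1, mul_inv_cancel_left₀ hi0]
  rw [hpq, w.map_mul _ _ hi0 hq0, hqo, add_zero]

end Pool.Agent.TH26.FL_GAUSS
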