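import Mathlib
import Pool.Agent.TH278.Defs2
set_option autoImplicit false

/-! # Final Hoelder step (job 667) -/

namespace Pool.Agent.TH278

open MeasureTheory Set Complex
open scoped ENNReal RealInnerProductSpace
open Pool.Agent.H438R2.RZ (e Good ft Pl Bump TR)
open Pool.Agent.H789R2.FR (E)

theorem FI {X : Type} [MeasurableSpace X] (μ : Measure X) [IsFiniteMeasure μ] (G P : X → ℝ)
    (hG : Measurable G) (hG0 : ∀ x, 0 ≤ G x) (hGb : ∃ M : ℝ, ∀ x, G x ≤ M)
    (hP : Measurable P) (hPb : ∃ m M : ℝ, 0 < m ∧ ∀ x, m ≤ P x ∧ P x ≤ M)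
    (p a t A P₀ : ℝ) (hp : 0 < p) (ha : 0 ≤ a) (ht : 0 ≤ t) (hpa : 1 / p + a = 1 + t)
    (hA : 0 ≤ A) (hP₀ : ∫ x, P x ∂μ ≤ P₀) (hZ : 0 < ∫ x, G x ^ p ∂μ)
    (h : ∫ x, G x * (G x ^ p / ∫ x, G x ^ p ∂μ) ^ a * P x ^ (-t) ∂μ ≤ A) :
    (∫ x, G x ^ p ∂μ) ^ (1 / p) ≤ A * P₀ ^ t := by
  obtain ⟨M, hM⟩ := hGb
  obtain ⟨m, M', hm, hPb⟩ := hPb
  have hPpos : ∀ x, 0 < P x := fun x => hm.trans_le (hPb x).1
  have ht1 : 0 < 1 + t := by linarith
  obtain ⟨Z, hZd⟩ : ∃ Z, Z = ∫ x, G x ^ p ∂μ := ⟨_, rfl⟩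
  rw [← hZd] at h hZ ⊢
  obtain ⟨H, hHd⟩ : ∃ H : X → ℝ, H = fun x => G x ^ p / Z := ⟨_, rfl⟩
  have hH0 : ∀ x, 0 ≤ H x := fun x => by
    rw [hHd]; exact div_nonneg (Real.rpow_nonneg (hG0 x) _) hZ.le
  have hHb : ∀ x, H x ≤ M ^ p / Z := fun x => by
    rw [hHd]
    exact div_le_div_of_nonneg_right (Real.rpow_le_rpow (hG0 x) (hM x) hp.le) hZ.le
  have hHm : Measurable H := by
    rw [hHd]
    exact (hG.pow_const p).div_const Z
  have hGH : ∀ x, G x = Z ^ (1 / p) * H x ^ (1 / p) := fun x => by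
    rw [hHd]
    change G x = Z ^ (1 / p) * (G x ^ p / Z) ^ (1 / p)
    rw [Real.div_rpow (Real.rpow_nonneg (hG0 x) _) hZ.le, ← Real.rpow_mul (hG0 x),
      mul_one_div_cancel hp.ne', Real.rpow_one]
    have : Z ^ (1 / p) ≠ 0 := (Real.rpow_pos_of_pos hZ _).ne'
    field_simp
  have hint : ∀ x, G x * (G x ^ p / Z) ^ a * P x ^ (-t) =
      Z ^ (1 / p) * (H x ^ (1 + t) * P x ^ (-t)) := fun x => by
    have h1 : G x ^ p / Z = H x := by rw [hHd]
    rw [h1, ← hpa, Real.rpow_add_of_nonneg (hH0 x) (by positivity) ha]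
    conv_lhs => rw [hGH x]
    ring
  have h2 : ∫ x, G x * (G x ^ p / Z) ^ a * P x ^ (-t) ∂μ =
      Z ^ (1 / p) * ∫ x, H x ^ (1 + t) * P x ^ (-t) ∂μ := by
    rw [← integral_const_mul]
    exact integral_congr_ae (Filter.Eventually.of_forall hint)
  rw [h2] at h
  obtain ⟨I, hId⟩ : ∃ I, I = ∫ x, H x ^ (1 + t) * P x ^ (-t) ∂μ := ⟨_, rfl⟩
  rw [← hId] at h
  have hI0 : 0 ≤ I := by
    rw [hId]
    exact integral_nonneg fun x => mul_nonneg (Real.rpow_nonneg (hH0 x) _)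
      (Real.rpow_nonneg (hPpos x).le _)
  have hH1 : ∫ x, H x ∂μ = 1 := by
    rw [hHd]
    rw [integral_div, ← hZd, div_self hZ.ne']
  have hPI0 : 0 ≤ ∫ x, P x ∂μ := integral_nonneg fun x => (hPpos x).le
  have key : 1 ≤ I * (∫ x, P x ∂μ) ^ t := by
    rcases ht.eq_or_lt with ht0 | ht0
    · subst ht0
      rw [hId]
      simp only [add_zero, Real.rpow_one, neg_zero, Real.rpow_zero, mul_one]
      exact hH1.ge
    · have hpq : (1 + t).HolderConjugate ((1 + t) / t) := by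
        rw [Real.holderConjugate_iff]
        refine ⟨by linarith, ?_⟩
        field_simp
      have hf : MemLp (fun x => H x * P x ^ (-(t / (1 + t)))) (ENNReal.ofReal (1 + t)) μ := by
        refine MemLp.of_bound ((hHm.mul (hP.pow_const _)).aestronglyMeasurable)
          (M ^ p / Z * m ^ (-(t / (1 + t)))) (Filter.Eventually.of_forall fun x => ?_)
        rw [Real.norm_of_nonneg (mul_nonneg (hH0 x) (Real.rpow_nonneg (hPpos x).le _))]
        refine mul_le_mul (hHb x) ?_ (Real.rpow_nonneg (hPpos x).le _) ((hH0 x).trans (hHb x))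
        exact Real.rpow_le_rpow_of_nonpos hm (hPb x).1 (by
          have : 0 ≤ t / (1 + t) := by positivity
          linarith)
      have hg : MemLp (fun x => P x ^ (t / (1 + t))) (ENNReal.ofReal ((1 + t) / t)) μ := by
        refine MemLp.of_bound ((hP.pow_const _).aestronglyMeasurable)
          (M' ^ (t / (1 + t))) (Filter.Eventually.of_forall fun x => ?_)
        rw [Real.norm_of_nonneg (Real.rpow_nonneg (hPpos x).le _)]
        exact Real.rpow_le_rpow (hPpos x).le (hPb x).2 (by positivity)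
      have h3 := integral_mul_le_Lp_mul_Lq_of_nonneg hpq
        (Filter.Eventually.of_forall fun x =>
          mul_nonneg (hH0 x) (Real.rpow_nonneg (hPpos x).le _))
        (Filter.Eventually.of_forall fun x => Real.rpow_nonneg (hPpos x).le _) hf hg
      have e1 : ∀ x, H x * P x ^ (-(t / (1 + t))) * P x ^ (t / (1 + t)) = H x := fun x => by
        rw [mul_assoc, ← Real.rpow_add (hPpos x), neg_add_cancel, Real.rpow_zero, mul_one]
      have e2 : ∀ x, (H x * P x ^ (-(t / (1 + t)))) ^ (1 + t) = H x ^ (1 + t) * P x ^ (-t) :=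
        fun x => by
          rw [Real.mul_rpow (hH0 x) (Real.rpow_nonneg (hPpos x).le _),
            ← Real.rpow_mul (hPpos x).le]
          congr 2
          field_simp
      have e3 : ∀ x, (P x ^ (t / (1 + t))) ^ ((1 + t) / t) = P x := fun x => by
        rw [← Real.rpow_mul (hPpos x).le]
        have : t / (1 + t) * ((1 + t) / t) = 1 := by field_simp
        rw [this, Real.rpow_one]
      simp only [e1, e2, e3] at h3
      rw [hH1, ← hId] at h3
      have h4 : (1 : ℝ) ^ (1 + t) ≤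
          (I ^ (1 / (1 + t)) * (∫ x, P x ∂μ) ^ (1 / ((1 + t) / t))) ^ (1 + t) :=
        Real.rpow_le_rpow zero_le_one h3 ht1.le
      rw [Real.one_rpow, Real.mul_rpow (Real.rpow_nonneg hI0 _) (Real.rpow_nonneg hPI0 _),
        ← Real.rpow_mul hI0, ← Real.rpow_mul hPI0] at h4
      have e4 : 1 / (1 + t) * (1 + t) = 1 := by field_simp
      have e5 : 1 / ((1 + t) / t) * (1 + t) = t := by field_simp
      rwa [e4, e5, Real.rpow_one] at h4
  have hmono : (∫ x, P x ∂μ) ^ t ≤ P₀ ^ t := Real.rpow_le_rpow hPI0 hP₀ ht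
  have hZp : 0 < Z ^ (1 / p) := Real.rpow_pos_of_pos hZ _
  have hP₀t : 0 ≤ P₀ ^ t := Real.rpow_nonneg (hPI0.trans hP₀) _
  calc Z ^ (1 / p) = Z ^ (1 / p) * 1 := (mul_one _).symm
    _ ≤ Z ^ (1 / p) * (I * P₀ ^ t) :=
        mul_le_mul_of_nonneg_left (key.trans (mul_le_mul_of_nonneg_left hmono hI0)) hZp.le
    _ = Z ^ (1 / p) * I * P₀ ^ t := by ring
    _ ≤ A * P₀ ^ t := mul_le_mul_of_nonneg_right h hP₀t

end Pool.Agent.TH278
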