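import Mathlib
import Pool.Agent.TH278.Defs2
set_option autoImplicit false

/-! # Loomis-Whitney step for the marginals (job 668) -/

namespace Pool.Agent.TH278

open MeasureTheory Set Complex
open scoped ENNReal RealInnerProductSpace
open Pool.Agent.H438R2.RZ (e Good ft Pl Bump TR)
open Pool.Agent.H789R2.FR (E)

namespace J668

/-- transfer to the space of functions -/
lemma lint_toLp (n : ℕ) (F : E n → ℝ≥0∞) :
    ∫⁻ x, F x = ∫⁻ y : Fin n → ℝ, F (WithLp.toLp 2 y) :=
  ((PiLp.volume_preserving_toLp (Fin n)).lintegral_comp_emb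
    (MeasurableEquiv.toLp 2 (Fin n → ℝ)).measurableEmbedding F).symm

lemma lint_cons (n : ℕ) (F : (Fin (n + 1) → ℝ) → ℝ≥0∞) (hF : Measurable F) :
    ∫⁻ y, F y = ∫⁻ a : ℝ, ∫⁻ w : Fin n → ℝ, F (Fin.cons a w) := by
  have h := (volume_preserving_piFinSuccAbove (fun _ : Fin (n + 1) => ℝ) 0).symm
  have h1 := h.lintegral_comp_emb
    (MeasurableEquiv.piFinSuccAbove (fun _ : Fin (n + 1) => ℝ) 0).symm.measurableEmbedding F
  rw [← h1]
  have h2 : Measurable fun p : ℝ × (Fin n → ℝ) =>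
      F ((MeasurableEquiv.piFinSuccAbove (fun _ : Fin (n + 1) => ℝ) 0).symm p) :=
    hF.comp (MeasurableEquiv.measurable _)
  have h3 := lintegral_prod (μ := (volume : Measure ℝ)) (ν := (volume : Measure (Fin n → ℝ))) _
    h2.aemeasurable
  refine h3.trans ?_
  refine lintegral_congr fun a => lintegral_congr fun w => ?_
  congr 1
  change @Fin.insertNth n (fun _ => ℝ) 0 a w = _
  exact Fin.insertNth_zero' a w

/-- the inequality on the fibres -/
lemma fibre (k : ℕ) (hk : 2 ≤ k) (f : (Fin k → ℝ) → ℝ≥0∞) (hf : Measurable f) :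
    ∫⁻ w : Fin k → ℝ, (∏ i : Fin k, (∫⁻ s : ℝ, f (Function.update w i s)) ^
        (1 / ((k : ℝ) - 1))) * (∫⁻ w, f w) ^ (-(1 / ((k : ℝ) - 1))) ≤ ∫⁻ w, f w := by
  have hk' : (2 : ℝ) ≤ k := by exact_mod_cast hk
  have hc : 0 < 1 / ((k : ℝ) - 1) := by
    have : 0 < (k : ℝ) - 1 := by linarith
    positivity
  have hm : Measurable fun w : Fin k → ℝ => ∏ i : Fin k,
      (∫⁻ s : ℝ, f (Function.update w i s)) ^ (1 / ((k : ℝ) - 1)) := by
    refine Finset.measurable_fun_prod _ fun i _ => Measurable.pow_const ?_ _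
    exact Measurable.lintegral_prod_right' (f := fun p : (Fin k → ℝ) × ℝ =>
      f (Function.update p.1 i p.2)) (hf.comp measurable_update')
  rw [lintegral_mul_const _ hm]
  have hp : Real.HolderConjugate (Fintype.card (Fin k)) (1 + 1 / ((k : ℝ) - 1)) := by
    rw [Real.holderConjugate_iff]
    rw [Fintype.card_fin]
    refine ⟨by linarith, ?_⟩
    have h1 : (k : ℝ) - 1 ≠ 0 := by
      have : 0 < (k : ℝ) - 1 := by linarith
      exact this.ne'
    have h2 : (k : ℝ) ≠ 0 := by positivity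
    have h3 : 1 + 1 / ((k : ℝ) - 1) = k / ((k : ℝ) - 1) := by field_simp; ring
    rw [h3, inv_div]
    field_simp
    ring
  have h := lintegral_prod_lintegral_pow_le (fun _ : Fin k => (volume : Measure ℝ)) hp hf
  rw [Fintype.card_fin] at h
  have h' : ∫⁻ w : Fin k → ℝ, ∏ i : Fin k, (∫⁻ s : ℝ, f (Function.update w i s)) ^
        (1 / ((k : ℝ) - 1)) ≤ (∫⁻ w, f w) ^ (1 + 1 / ((k : ℝ) - 1)) := h
  refine (mul_le_mul_left h' _).trans ?_
  generalize (∫⁻ w, f w) = S
  generalize 1 / ((k : ℝ) - 1) = c at hc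
  rcases eq_or_ne S 0 with rfl | h0
  · rw [ENNReal.zero_rpow_of_pos (by linarith), zero_mul]
  rcases eq_or_ne S ⊤ with rfl | ht
  · exact le_top
  · rw [← ENNReal.rpow_add _ _ h0 ht, add_neg_cancel_right, ENNReal.rpow_one]

end J668

open J668

/-- `H` bounded measurable, positive on a cube and zero outside; for `k ≥ 2` -/
theorem LW (k : ℕ) (hk : 2 ≤ k) (H : E (k + 2) → ℝ≥0∞) (hH : Measurable H) :
    ∫⁻ x : E (k + 2), (∏ i : Fin k, (∫⁻ s : ℝ, H (WithLp.toLp 2 (Function.update (⇑x) i.succ.succ s))) ^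
        (1 / ((k : ℝ) - 1))) *
      (∫⁻ w : E k, H (inp (x 0, x 1) w)) ^ (-(1 / ((k : ℝ) - 1))) ≤ ∫⁻ x, H x := by
  have hK : Measurable fun y : Fin (k + 2) → ℝ => H (WithLp.toLp 2 y) :=
    hH.comp (MeasurableEquiv.toLp 2 (Fin (k + 2) → ℝ)).measurable
  rw [lint_toLp, lint_toLp]
  obtain ⟨K, hKd⟩ : ∃ K : (Fin (k + 2) → ℝ) → ℝ≥0∞, K = fun y => H (WithLp.toLp 2 y) := ⟨_, rfl⟩
  rw [← hKd] at hK
  have e1 : ∀ y : Fin (k + 2) → ℝ,
      (∏ i : Fin k, (∫⁻ s : ℝ, H (WithLp.toLp 2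
        (Function.update (⇑(WithLp.toLp 2 y : E (k + 2))) i.succ.succ s))) ^
          (1 / ((k : ℝ) - 1))) *
        (∫⁻ w : E k, H (inp ((WithLp.toLp 2 y : E (k + 2)) 0, (WithLp.toLp 2 y : E (k + 2)) 1) w)) ^
          (-(1 / ((k : ℝ) - 1))) =
      (∏ i : Fin k, (∫⁻ s : ℝ, K (Function.update y i.succ.succ s)) ^ (1 / ((k : ℝ) - 1))) *
        (∫⁻ w : Fin k → ℝ, K (Fin.cons (y 0) (Fin.cons (y 1) w))) ^
          (-(1 / ((k : ℝ) - 1))) := fun y => by
    rw [lint_toLp, hKd]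
    rfl
  simp only [e1]
  have e2 : ∀ y : Fin (k + 2) → ℝ, H (WithLp.toLp 2 y) = K y := fun y => by rw [hKd]
  simp only [e2]
  have hm1 : ∀ i : Fin k, Measurable fun y : Fin (k + 2) → ℝ =>
      ∫⁻ s : ℝ, K (Function.update y i.succ.succ s) := fun i =>
    Measurable.lintegral_prod_right' (f := fun p : (Fin (k + 2) → ℝ) × ℝ =>
      K (Function.update p.1 i.succ.succ p.2)) (hK.comp measurable_update')
  have hcons : Measurable fun p : (Fin (k + 2) → ℝ) × (Fin k → ℝ) =>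
      (Fin.cons (p.1 0) (Fin.cons (p.1 1) p.2) : Fin (k + 2) → ℝ) := by
    refine measurable_pi_iff.2 fun j => ?_
    refine Fin.cases ?_ (fun j => ?_) j
    · simp only [Fin.cons_zero]
      exact (measurable_pi_apply 0).comp measurable_fst
    · refine Fin.cases ?_ (fun j => ?_) j
      · simp only [Fin.cons_succ, Fin.cons_zero]
        exact (measurable_pi_apply 1).comp measurable_fst
      · simp only [Fin.cons_succ]
        exact (measurable_pi_apply j).comp measurable_snd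
  have hm2 : Measurable fun y : Fin (k + 2) → ℝ =>
      ∫⁻ w : Fin k → ℝ, K (Fin.cons (y 0) (Fin.cons (y 1) w)) :=
    Measurable.lintegral_prod_right' (f := fun p : (Fin (k + 2) → ℝ) × (Fin k → ℝ) =>
      K (Fin.cons (p.1 0) (Fin.cons (p.1 1) p.2))) (hK.comp hcons)
  have hm3 : Measurable fun y : Fin (k + 2) → ℝ =>
      (∏ i : Fin k, (∫⁻ s : ℝ, K (Function.update y i.succ.succ s)) ^ (1 / ((k : ℝ) - 1))) *
        (∫⁻ w : Fin k → ℝ, K (Fin.cons (y 0) (Fin.cons (y 1) w))) ^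
          (-(1 / ((k : ℝ) - 1))) :=
    (Finset.measurable_fun_prod _ fun i _ => (hm1 i).pow_const _).mul (hm2.pow_const _)
  have hcm : ∀ (n : ℕ) (a : ℝ), Measurable fun w : Fin n → ℝ => (Fin.cons a w : Fin (n + 1) → ℝ) := by
    intro n a
    refine measurable_pi_iff.2 fun j => ?_
    refine Fin.cases ?_ (fun j => ?_) j
    · simp only [Fin.cons_zero]
      exact measurable_const
    · simp only [Fin.cons_succ]
      exact measurable_pi_apply j
  rw [lint_cons _ _ hm3, lint_cons _ _ hK]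
  refine lintegral_mono fun a => ?_
  refine (lint_cons _ _ (hm3.comp (hcm _ a))).trans_le ?_
  refine le_trans ?_ (lint_cons _ _ (hK.comp (hcm _ a))).ge
  refine lintegral_mono fun b => ?_
  have h := fibre k hk (fun w => K (Fin.cons a (Fin.cons b w)))
    ((hK.comp (hcm _ a)).comp (hcm _ b))
  refine le_trans (le_of_eq ?_) h
  refine lintegral_congr fun w => ?_
  have e3 : ∀ i : Fin k, ∀ s : ℝ, Function.update
      (Fin.cons a (Fin.cons b w : Fin (k + 1) → ℝ) : Fin (k + 2) → ℝ) i.succ.succ s =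
      Fin.cons a (Fin.cons b (Function.update w i s) : Fin (k + 1) → ℝ) := fun i s => by
    rw [Fin.cons_update, Fin.cons_update]
  have e4 : ∀ i : Fin k, ∫⁻ s : ℝ, K (Function.update
      (Fin.cons a (Fin.cons b w : Fin (k + 1) → ℝ) : Fin (k + 2) → ℝ) i.succ.succ s) =
      ∫⁻ s : ℝ, K (Fin.cons a (Fin.cons b (Function.update w i s) : Fin (k + 1) → ℝ)) :=
    fun i => lintegral_congr fun s => by rw [e3]
  change (∏ i : Fin k, (∫⁻ s : ℝ, K (Function.update
      (Fin.cons a (Fin.cons b w : Fin (k + 1) → ℝ) : Fin (k + 2) → ℝ) i.succ.succ s)) ^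
        (1 / ((k : ℝ) - 1))) * _ = _
  rw [Finset.prod_congr rfl fun i _ => by rw [e4 i]]
  rfl

end Pool.Agent.TH278
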